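import Pool.Agent.Lib.MP_210e22_co.TA.GMon

/-!
# Powers of two dividing the number of transversals: a criterion in terms of the group algebra

`N G` is the number of transversals of the Cayley table of the finite group `G` of order `n`.  Let
`U`, `V` and `Z` be subspaces of the group algebra of `G` over the field with two elements such
that `Z` contains all the products `u * v` with `u ∈ U` and `v ∈ V`.  Then `2 ^ m` divides `N G`
whenever `m + q * (codim U + codim V + dim Z) + 3 * ⌊n / 2 ^ q⌋ ≤ n` for a natural number `q`.

For a 2-group one may take for `U`, `V` and `Z` the powers `J ^ s`, `J ^ t` and `J ^ (s + t)` of the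
augmentation ideal `J`.

Proof.  Take bases of the group algebra which are adapted to `U` and to `V`, and a basis of the
functions on `G` which is adapted to the annihilator of `Z`.  Lift them to the integers; the
determinants are odd.  This gives an expansion of the function `[a * b = c]`, up to an odd factor,
as `∑ P(a, i) Q(b, j) R(c, l) C(i, j, l)` with integers `C(i, j, l)` which are even unless `i`, `j`
or `l` is one of the `codim U + codim V + dim Z` exceptional indices.  Up to an odd factor
`n! * N G` is then the sum over the functions `w` from `G` to the set of the triples `(i, j, l)` of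
the products of the `C(w x)` and of three permanents, which are divisible by the factorials of the
fibre sizes.
-/

namespace Pool.Agent.Results.MP_210e22_co.GroupAlgebraCriterion

open Pool.Agent.MP210e22

/-- Let `U`, `V`, `Z` be subspaces of the group algebra of the finite group `G` over the field with
two elements with `u * v ∈ Z` for all `u ∈ U` and `v ∈ V`.  If
`m + q * (codim U + codim V + dim Z) + 3 * ⌊|G| / 2 ^ q⌋ ≤ |G|` then `2 ^ m` divides the number of
transversals of the Cayley table of `G`. -/
theorem result (G : Type) [Group G] [Finite G]
    (U V Z : Submodule (ZMod 2) (MonoidAlgebra (ZMod 2) G))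
    (hUV : ∀ u ∈ U, ∀ v ∈ V, u * v ∈ Z) (q m : ℕ)
    (hm : m + q * ((Nat.card G - Module.finrank (ZMod 2) U) +
      (Nat.card G - Module.finrank (ZMod 2) V) + Module.finrank (ZMod 2) Z) +
      3 * (Nat.card G / 2 ^ q) ≤ Nat.card G) :
    2 ^ m ∣ N G :=
  group_algebra_dvd U V Z hUV q m hm

end Pool.Agent.Results.MP_210e22_co.GroupAlgebraCriterion
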