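import Mathlib

/-!
# Powers of two dividing the number of transversals of a Cayley table

`N G` is the number of transversals of the Cayley table of the finite group `G`.  If `G` has a
central element of order two, in particular if `G` is a nontrivial `2`-group, then
`|G| * 2 ^ (|G| / 2 - 1)` divides `N G`.

Proof.  A transversal is a permutation `θ` of `G` for which `g ↦ g * θ g` is a bijection, and by
translation it is enough to count those with `θ 1 = 1`.  Let `z` be a central element of order two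
and `m = |G| / 2`.  Pairs `(a, b)` of functions on the set of the `m` cosets of `{1, z}` with values
in `ZMod 2` act on the permutations: `a` interchanges the two elements of the coset `q` (among the
rows) if `a q = 1`, and `b` does the same with the columns.  For a given `θ` the pairs that lead to
a transversal again are exactly the solutions of a homogeneous linear system of `m` equations whose
sum is zero, and two more equations make sure that the cell `(1, 1)` is kept.  Different solutions
give different transversals, so the transversals through `(1, 1)` fall into classes whose sizes are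
powers of two with exponent at least `2 * m - (m - 1) - 2 = m - 1`.
-/

namespace Pool.Agent.Results.MP_210e22_co.HalfPower

open Finset

/-- `T` is a transversal of the Cayley table of `G`: a set of cells with exactly one cell in each
row, in each column and with each symbol. -/
def IsTransversal (G : Type) [Group G] (T : Set (G × G)) : Prop :=
  (∀ g : G, ∃! c : G × G, c ∈ T ∧ c.1 = g) ∧
  (∀ h : G, ∃! c : G × G, c ∈ T ∧ c.2 = h) ∧
  (∀ s : G, ∃! c : G × G, c ∈ T ∧ c.1 * c.2 = s)

/-- The number of transversals of the Cayley table of `G`. -/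
noncomputable def N (G : Type) [Group G] : ℕ := Nat.card {T : Set (G × G) // IsTransversal G T}

section

variable {G : Type} [Group G] [Fintype G]

/-- the permutations that describe transversals -/
def Good (θ : Equiv.Perm G) : Prop := Function.Bijective fun g => g * θ g

theorem N_eq_card_good : N G = Nat.card {θ : Equiv.Perm G // Good θ} := by
  unfold N
  symm
  have hmem : ∀ θ : {θ : Equiv.Perm G // Good θ},
      IsTransversal G {c : G × G | c.2 = θ.1 c.1} := by
    rintro ⟨θ, hθ⟩
    refine ⟨fun g => ⟨(g, θ g), ⟨rfl, rfl⟩, ?_⟩, fun h => ⟨(θ.symm h, h), ⟨?_, rfl⟩, ?_⟩,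
      fun s => ?_⟩
    · rintro ⟨a, b⟩ ⟨h1, h2⟩
      simp only [Set.mem_ofPred_eq] at h1 h2
      subst h2
      rw [h1]
    · simp
    · rintro ⟨a, b⟩ ⟨h1, h2⟩
      simp only [Set.mem_ofPred_eq] at h1 h2
      subst h2
      rw [h1]
      simp
    · obtain ⟨g, hg⟩ := hθ.2 s
      refine ⟨(g, θ g), ⟨rfl, hg⟩, ?_⟩
      rintro ⟨a, b⟩ ⟨h1, h2⟩
      simp only [Set.mem_ofPred_eq] at h1 h2
      subst h1
      have : a = g := hθ.1 (h2.trans hg.symm)
      rw [this]
  refine Nat.card_eq_of_bijective
    (fun θ => (⟨{c : G × G | c.2 = θ.1 c.1}, hmem θ⟩ : {T : Set (G × G) // IsTransversal G T}))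
    ⟨?_, ?_⟩
  · rintro ⟨θ, hθ⟩ ⟨θ', hθ'⟩ h
    have h1 : {c : G × G | c.2 = θ c.1} = {c : G × G | c.2 = θ' c.1} := congrArg Subtype.val h
    apply Subtype.ext
    ext g
    have h2 : (g, θ g) ∈ {c : G × G | c.2 = θ c.1} := rfl
    rw [h1] at h2
    exact h2
  · rintro ⟨T, hT⟩
    obtain ⟨hr, hc, hs⟩ := hT
    choose cr hcr hcr' using (show ∀ g : G, ∃! c : G × G, c ∈ T ∧ c.1 = g from hr)
    have hmemr : ∀ g, (g, (cr g).2) ∈ T := by
      intro g
      have h1 := (hcr g).2
      have h2 : (g, (cr g).2) = cr g := Prod.ext h1.symm rfl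
      rw [h2]
      exact (hcr g).1
    have huniq : ∀ g h, (g, h) ∈ T → h = (cr g).2 := by
      intro g h hgh
      have := hcr' g (g, h) ⟨hgh, rfl⟩
      rw [← this]
    have hinj : Function.Injective fun g => (cr g).2 := by
      intro g g' hgg
      obtain ⟨c, _, hc'⟩ := hc (cr g).2
      have h1 := hc' (g, (cr g).2) ⟨hmemr g, rfl⟩
      have h2 := hc' (g', (cr g').2) ⟨hmemr g', by simpa using hgg.symm⟩
      have h3 := h1.trans h2.symm
      exact congrArg Prod.fst h3
    have hbij : Function.Bijective fun g => (cr g).2 := Finite.injective_iff_bijective.mp hinj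
    have hgood : Good (Equiv.ofBijective _ hbij) := by
      apply Finite.injective_iff_bijective.mp
      intro g g' hgg
      obtain ⟨c, _, hc'⟩ := hs (g * (cr g).2)
      have h1 := hc' (g, (cr g).2) ⟨hmemr g, rfl⟩
      have h2 := hc' (g', (cr g').2) ⟨hmemr g', hgg.symm⟩
      have h3 := h1.trans h2.symm
      exact congrArg Prod.fst h3
    refine ⟨⟨Equiv.ofBijective _ hbij, hgood⟩, ?_⟩
    apply Subtype.ext
    ext ⟨g, h⟩
    simp only [Set.mem_ofPred_eq, Equiv.ofBijective_apply]
    constructor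
    · intro hh
      rw [hh]
      exact hmemr g
    · exact huniq g h

/-- normalised permutations -/
def Norm (θ : Equiv.Perm G) : Prop := Good θ ∧ θ 1 = 1

omit [Fintype G] in
theorem card_good_eq :
    Nat.card {θ : Equiv.Perm G // Good θ} = Nat.card G * Nat.card {θ : Equiv.Perm G // Norm θ} := by
  rw [← Nat.card_prod]
  symm
  have hm : ∀ p : G × {θ : Equiv.Perm G // Norm θ},
      Good (p.2.1.trans (Equiv.mulRight p.1)) := by
    rintro ⟨k, ⟨θ, hθ, _⟩⟩
    have : (fun g => g * (θ.trans (Equiv.mulRight k)) g) = (fun s => s * k) ∘ fun g => g * θ g := by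
      funext g
      simp [mul_assoc]
    show Function.Bijective _
    rw [this]
    exact (Equiv.mulRight k).bijective.comp hθ
  refine Nat.card_eq_of_bijective
    (fun p => (⟨p.2.1.trans (Equiv.mulRight p.1), hm p⟩ : {θ : Equiv.Perm G // Good θ})) ⟨?_, ?_⟩
  · rintro ⟨k, ⟨θ, hθ, h1⟩⟩ ⟨k', ⟨θ', hθ', h1'⟩⟩ h
    have h2 : θ.trans (Equiv.mulRight k) = θ'.trans (Equiv.mulRight k') := congrArg Subtype.val h
    have h3 : k = k' := by
      have := congrArg (fun f : Equiv.Perm G => f 1) h2
      simpa [h1, h1'] using this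
    subst h3
    have h4 : θ = θ' := by
      ext g
      have := congrArg (fun f : Equiv.Perm G => f g) h2
      simpa using this
    subst h4
    rfl
  · rintro ⟨θ, hθ⟩
    have hg : Good (θ.trans (Equiv.mulRight (θ 1)⁻¹)) := by
      have : (fun g => g * (θ.trans (Equiv.mulRight (θ 1)⁻¹)) g)
          = (fun s => s * (θ 1)⁻¹) ∘ fun g => g * θ g := by
        funext g
        simp [mul_assoc]
      show Function.Bijective _
      rw [this]
      exact (Equiv.mulRight (θ 1)⁻¹).bijective.comp hθ
    refine ⟨⟨θ 1, ⟨θ.trans (Equiv.mulRight (θ 1)⁻¹), hg, by simp⟩⟩, ?_⟩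
    apply Subtype.ext
    ext g
    simp

omit [Fintype G]

/-! ### the flips -/

/-- `e ↦ z ^ e` for `e : ZMod 2` -/
def tw (z : G) (e : ZMod 2) : G := if e = 0 then 1 else z

theorem tw_zero (z : G) : tw z 0 = 1 := by simp [tw]

theorem tw_one (z : G) : tw z 1 = z := by simp [tw]

theorem zmod2_cases : ∀ x : ZMod 2, x = 0 ∨ x = 1 := by decide

theorem zmod2_ne_cases : ∀ x y : ZMod 2, x ≠ y → (x = 0 ∧ y = 1) ∨ (x = 1 ∧ y = 0) := by decide

theorem tw_add {z : G} (hz : z * z = 1) (e e' : ZMod 2) : tw z (e + e') = tw z e * tw z e' := by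
  rcases zmod2_cases e with rfl | rfl
  · rw [zero_add, tw_zero, one_mul]
  · rcases zmod2_cases e' with rfl | rfl
    · rw [add_zero, tw_zero, mul_one]
    · rw [CharTwo.add_self_eq_zero, tw_zero, tw_one, hz]

theorem tw_self {z : G} (hz : z * z = 1) (e : ZMod 2) : tw z e * tw z e = 1 := by
  rw [← tw_add hz, CharTwo.add_self_eq_zero, tw_zero]

theorem tw_comm {z : G} (hc : ∀ g : G, z * g = g * z) (e : ZMod 2) (g : G) :
    tw z e * g = g * tw z e := by
  unfold tw
  split_ifs
  · simp
  · exact hc g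

/-- the cosets of `{1, z}` -/
abbrev Qt (z : G) := G ⧸ Subgroup.zpowers z

/-- the projection -/
def pr (z : G) (g : G) : Qt z := (g : G ⧸ Subgroup.zpowers z)

theorem pr_mul (z g : G) : pr z (g * z) = pr z g := by
  unfold pr
  rw [QuotientGroup.eq]
  simp

theorem pr_tw (z g : G) (e : ZMod 2) : pr z (g * tw z e) = pr z g := by
  unfold tw
  split_ifs
  · rw [mul_one]
  · exact pr_mul z g

theorem pr_eq {z : G} (hz : z * z = 1) {x y : G} (h : pr z x = pr z y) : x = y ∨ x = y * z := by
  unfold pr at h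
  rw [QuotientGroup.eq] at h
  obtain ⟨k, hk⟩ := Subgroup.mem_zpowers_iff.mp h
  have h2 : z ^ (2 : ℤ) = 1 := by
    rw [zpow_ofNat, pow_two, hz]
  rcases Int.even_or_odd' k with ⟨j, rfl | rfl⟩
  · left
    rw [zpow_mul, h2, one_zpow] at hk
    exact eq_of_inv_mul_eq_one hk.symm
  · right
    rw [zpow_add, zpow_mul, h2, one_zpow, one_mul, zpow_one] at hk
    rw [eq_inv_mul_iff_mul_eq] at hk
    rw [← hk, mul_assoc, hz, mul_one]

/-- the flip of the cosets `q` with `a q = 1` -/
def flip {z : G} (hz : z * z = 1) (a : Qt z → ZMod 2) : Equiv.Perm G :=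
  Function.Involutive.toPerm (fun g => g * tw z (a (pr z g))) (by
    intro g
    simp only [pr_tw]
    rw [mul_assoc, tw_self hz, mul_one])

theorem flip_apply {z : G} (hz : z * z = 1) (a : Qt z → ZMod 2) (g : G) :
    flip hz a g = g * tw z (a (pr z g)) := rfl

theorem flip_flip {z : G} (hz : z * z = 1) (a a' : Qt z → ZMod 2) (g : G) :
    flip hz a (flip hz a' g) = flip hz (a + a') g := by
  rw [flip_apply, flip_apply, flip_apply, pr_tw, mul_assoc, ← tw_add hz, Pi.add_apply,
    add_comm (a _)]

theorem flip_zero {z : G} (hz : z * z = 1) (g : G) : flip hz 0 g = g := by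
  rw [flip_apply, Pi.zero_apply, tw_zero, mul_one]

theorem flip_self {z : G} (hz : z * z = 1) (a : Qt z → ZMod 2) (g : G) :
    flip hz a (flip hz a g) = g := by
  have : a + a = 0 := by
    funext q
    exact CharTwo.add_self_eq_zero _
  rw [flip_flip, this, flip_zero]

/-- pairs of flips of the rows and of the columns -/
abbrev Vt (z : G) := (Qt z → ZMod 2) × (Qt z → ZMod 2)

/-- the action of the flips on the permutations -/
def act {z : G} (hz : z * z = 1) (v : Vt z) (θ : Equiv.Perm G) : Equiv.Perm G :=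
  (flip hz v.1).trans (θ.trans (flip hz v.2))

theorem act_apply {z : G} (hz : z * z = 1) (v : Vt z) (θ : Equiv.Perm G) (g : G) :
    act hz v θ g = flip hz v.2 (θ (flip hz v.1 g)) := rfl

theorem act_zero {z : G} (hz : z * z = 1) (θ : Equiv.Perm G) : act hz 0 θ = θ := by
  ext g
  rw [act_apply]
  show flip hz 0 (θ (flip hz 0 g)) = θ g
  rw [flip_zero, flip_zero]

theorem act_act {z : G} (hz : z * z = 1) (v w : Vt z) (θ : Equiv.Perm G) :
    act hz v (act hz w θ) = act hz (v + w) θ := by
  ext g
  rw [act_apply, act_apply, act_apply, flip_flip, flip_flip]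
  show flip hz (v.2 + w.2) (θ (flip hz (w.1 + v.1) g))
    = flip hz (v.2 + w.2) (θ (flip hz (v.1 + w.1) g))
  rw [add_comm w.1]

theorem add_self_Vt {z : G} (v : Vt z) : v + v = 0 := by
  ext q
  · exact CharTwo.add_self_eq_zero _
  · exact CharTwo.add_self_eq_zero _

/-- the symbol of the cell in the row `flip v.1 g` of the new permutation -/
theorem act_symbol {z : G} (hz : z * z = 1) (hc : ∀ g : G, z * g = g * z) (v : Vt z)
    (θ : Equiv.Perm G) (g : G) :
    flip hz v.1 g * act hz v θ (flip hz v.1 g)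
      = (g * θ g) * tw z (v.1 (pr z g) + v.2 (pr z (θ g))) := by
  rw [act_apply, flip_self, flip_apply, flip_apply, tw_add hz]
  rw [mul_assoc g, ← mul_assoc (tw z (v.1 (pr z g))), tw_comm hc _ (θ g)]
  simp only [mul_assoc]

/-- the permutation of the symbols -/
noncomputable def sy {θ : Equiv.Perm G} (hθ : Good θ) : Equiv.Perm G := Equiv.ofBijective _ hθ

theorem sy_apply {θ : Equiv.Perm G} (hθ : Good θ) (g : G) : sy hθ g = g * θ g := rfl

/-- the function `f` of the text -/
noncomputable def ff {z : G} {θ : Equiv.Perm G} (hθ : Good θ) (v : Vt z) (s : G) : ZMod 2 :=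
  v.1 (pr z ((sy hθ).symm s)) + v.2 (pr z (θ ((sy hθ).symm s)))

theorem good_act_iff {z : G} (hz : z * z = 1) (hz1 : z ≠ 1) (hc : ∀ g : G, z * g = g * z)
    [Finite G] (v : Vt z) {θ : Equiv.Perm G} (hθ : Good θ) :
    Good (act hz v θ) ↔ ∀ s, ff hθ v (s * z) = ff hθ v s := by
  have h1 : Good (act hz v θ) ↔ Function.Injective fun s => s * tw z (ff hθ v s) := by
    have h2 : (fun s => s * tw z (ff hθ v s)) ∘ (sy hθ)
        = (fun g => g * act hz v θ g) ∘ (flip hz v.1) := by
      funext g
      show sy hθ g * tw z (ff hθ v (sy hθ g)) = flip hz v.1 g * act hz v θ (flip hz v.1 g)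
      rw [act_symbol hz hc]
      unfold ff
      rw [Equiv.symm_apply_apply, sy_apply]
    unfold Good
    rw [← Finite.injective_iff_bijective, ← Equiv.injective_comp (flip hz v.1), ← h2,
      Equiv.injective_comp]
  rw [h1]
  constructor
  · intro hinj s
    by_contra hne
    have hzz : s * z ≠ s := by
      intro h
      exact hz1 (mul_eq_left.mp h)
    generalize hx : ff hθ v (s * z) = x at hne
    generalize hy : ff hθ v s = y at hne
    have hcase : (x = 0 ∧ y = 1) ∨ (x = 1 ∧ y = 0) := zmod2_ne_cases x y hne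
    rcases hcase with ⟨rfl, rfl⟩ | ⟨rfl, rfl⟩
    · apply hzz
      apply hinj
      show s * z * tw z (ff hθ v (s * z)) = s * tw z (ff hθ v s)
      rw [hx, hy, tw_zero, tw_one, mul_one]
    · apply hzz
      apply hinj
      show s * z * tw z (ff hθ v (s * z)) = s * tw z (ff hθ v s)
      rw [hx, hy, tw_zero, tw_one, mul_one, mul_assoc, hz, mul_one]
  · intro hf s s' h
    have h' : s * tw z (ff hθ v s) = s' * tw z (ff hθ v s') := h
    have h3 : pr z s = pr z s' := by
      rw [← pr_tw z s (ff hθ v s), ← pr_tw z s' (ff hθ v s'), h']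
    rcases pr_eq hz h3 with h4 | h4
    · exact h4
    · exfalso
      rw [h4, hf, mul_assoc] at h'
      have h5 := mul_left_cancel h'
      exact hz1 (mul_eq_right.mp h5)

/-- the flips act freely on the good permutations -/
theorem act_inj {z : G} (hz : z * z = 1) (hz1 : z ≠ 1) (hc : ∀ g : G, z * g = g * z)
    {v : Vt z} {θ : Equiv.Perm G} (hθ : Good θ) (h : act hz v θ = θ) : v = 0 := by
  have h1 : ∀ g, v.1 (pr z g) = 0 := by
    intro g
    by_contra hne
    have hv : v.1 (pr z g) = 1 := by
      exact (zmod2_cases _).resolve_left hne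
    have h2 := act_symbol hz hc v θ g
    have h3 : flip hz v.1 g = g * z := by rw [flip_apply, hv, tw_one]
    rw [h, h3] at h2
    have h4 : act hz v θ (g * z) = θ g * tw z (v.2 (pr z (θ g))) := by
      rw [act_apply, ← h3, flip_self, flip_apply]
    rw [h] at h4
    -- `θ (g z) = θ g * tw`, so `tw = z`
    have h5 : v.2 (pr z (θ g)) = 1 := by
      generalize hx : v.2 (pr z (θ g)) = x at h4
      rcases zmod2_cases x with rfl | rfl
      · exfalso
        rw [tw_zero, mul_one] at h4
        exact hz1 (mul_eq_left.mp (θ.injective h4))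
      · rfl
    rw [h5, tw_one] at h4
    have h6 : (fun g => g * θ g) (g * z) = (fun g => g * θ g) g := by
      show g * z * θ (g * z) = g * θ g
      rw [h4, mul_assoc, ← mul_assoc z, hc (θ g), mul_assoc, hz, mul_one]
    exact hz1 (mul_eq_left.mp (hθ.1 h6))
  have h1' : v.1 = 0 := by
    funext q
    obtain ⟨g, rfl⟩ := QuotientGroup.mk_surjective q
    exact h1 g
  have h2' : v.2 = 0 := by
    funext q
    obtain ⟨g, rfl⟩ := QuotientGroup.mk_surjective q
    show v.2 (pr z g) = 0
    obtain ⟨x, rfl⟩ := θ.surjective g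
    by_contra hne
    have hv : v.2 (pr z (θ x)) = 1 := by
      exact (zmod2_cases _).resolve_left hne
    have h7 : act hz v θ x = θ x * z := by
      rw [act_apply, h1', flip_zero, flip_apply, hv, tw_one]
    rw [h] at h7
    exact hz1 (mul_eq_left.mp h7.symm)
  exact Prod.ext h1' h2'

/-! ### coordinates with respect to the cosets of `{1, z}` -/

theorem pr_out {z : G} (q : Qt z) : pr z (Quotient.out q) = q := QuotientGroup.out_eq' q

theorem co_bij {z : G} (hz : z * z = 1) (hz1 : z ≠ 1) :
    Function.Bijective fun p : Qt z × ZMod 2 => Quotient.out p.1 * tw z p.2 := by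
  constructor
  · rintro ⟨q, e⟩ ⟨q', e'⟩ h
    have h' : Quotient.out q * tw z e = Quotient.out q' * tw z e' := h
    have h1 : q = q' := by
      have h2 := congrArg (pr z) h'
      rwa [pr_tw, pr_tw, pr_out, pr_out] at h2
    subst h1
    have h3 := mul_left_cancel h'
    have h4 : e = e' := by
      rcases zmod2_cases e with rfl | rfl <;> rcases zmod2_cases e' with rfl | rfl
      · rfl
      · rw [tw_zero, tw_one] at h3
        exact absurd h3.symm hz1
      · rw [tw_zero, tw_one] at h3
        exact absurd h3 hz1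
      · rfl
    rw [h4]
  · intro g
    rcases pr_eq hz (show pr z g = pr z (Quotient.out (pr z g)) from (pr_out _).symm) with h | h
    · refine ⟨(pr z g, 0), ?_⟩
      show Quotient.out (pr z g) * tw z 0 = g
      rw [tw_zero, mul_one]
      exact h.symm
    · refine ⟨(pr z g, 1), ?_⟩
      show Quotient.out (pr z g) * tw z 1 = g
      rw [tw_one]
      exact h.symm

/-- the pairs `(q, e)` parametrise the group -/
noncomputable def co {z : G} (hz : z * z = 1) (hz1 : z ≠ 1) : Qt z × ZMod 2 ≃ G :=
  Equiv.ofBijective _ (co_bij hz hz1)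

theorem co_apply {z : G} (hz : z * z = 1) (hz1 : z ≠ 1) (p : Qt z × ZMod 2) :
    co hz hz1 p = Quotient.out p.1 * tw z p.2 := rfl

theorem card_eq {z : G} (hz : z * z = 1) (hz1 : z ≠ 1) : Nat.card G = Nat.card (Qt z) * 2 := by
  rw [← Nat.card_congr (co hz hz1), Nat.card_prod, Nat.card_zmod]

theorem sum_eq {z : G} (hz : z * z = 1) (hz1 : z ≠ 1) [Fintype G] [Fintype (Qt z)]
    (F : G → ZMod 2) :
    ∑ s, F s = ∑ q : Qt z, (F (Quotient.out q) + F (Quotient.out q * z)) := by
  rw [← Equiv.sum_comp (co hz hz1) F, Fintype.sum_prod_type]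
  apply Finset.sum_congr rfl
  intro q _
  have h : ∀ f : ZMod 2 → ZMod 2, ∑ e, f e = f 0 + f 1 := fun f => Fin.sum_univ_two f
  rw [h, co_apply, co_apply]
  show F (Quotient.out q * tw z 0) + F (Quotient.out q * tw z 1) = _
  rw [tw_zero, tw_one, mul_one]

theorem sum_pr {z : G} (hz : z * z = 1) (hz1 : z ≠ 1) [Fintype G] [Fintype (Qt z)]
    (a : Qt z → ZMod 2) : ∑ g, a (pr z g) = 0 := by
  rw [sum_eq hz hz1]
  apply Finset.sum_eq_zero
  intro q _
  rw [pr_mul]
  exact CharTwo.add_self_eq_zero _

theorem sum_ff {z : G} (hz : z * z = 1) (hz1 : z ≠ 1) [Fintype G] [Fintype (Qt z)]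
    {θ : Equiv.Perm G} (hθ : Good θ) (v : Vt z) : ∑ s, ff hθ v s = 0 := by
  rw [← Equiv.sum_comp (sy hθ)]
  unfold ff
  simp only [Equiv.symm_apply_apply]
  rw [Finset.sum_add_distrib, sum_pr hz hz1, Equiv.sum_comp θ (fun g => v.2 (pr z g)),
    sum_pr hz hz1, add_zero]

/-! ### the kernel -/

/-- the linear map whose kernel is the set of admissible normalised flips -/
noncomputable def Phi {z : G} {θ : Equiv.Perm G} (hθ : Good θ) :
    Vt z →ₗ[ZMod 2] (Qt z → ZMod 2) × (ZMod 2 × ZMod 2) where
  toFun v := (fun q => ff hθ v (Quotient.out q) + ff hθ v (Quotient.out q * z),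
    (v.1 (pr z 1), v.2 (pr z 1)))
  map_add' v w := by
    refine Prod.ext ?_ rfl
    funext q
    simp only [ff, Prod.fst_add, Prod.snd_add, Pi.add_apply]
    ring
  map_smul' c v := by
    refine Prod.ext ?_ rfl
    funext q
    simp only [ff, Prod.smul_fst, Prod.smul_snd, Pi.smul_apply, smul_eq_mul, RingHom.id_apply]
    ring

/-- the sum of the coordinates -/
noncomputable def ell (z : G) [Fintype (Qt z)] :
    (Qt z → ZMod 2) × (ZMod 2 × ZMod 2) →ₗ[ZMod 2] ZMod 2 where
  toFun w := ∑ q, w.1 q
  map_add' v w := by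
    simp only [Prod.fst_add, Pi.add_apply, Finset.sum_add_distrib]
  map_smul' c v := by
    simp only [Prod.smul_fst, Pi.smul_apply, smul_eq_mul, RingHom.id_apply, Finset.mul_sum]

theorem mem_ker_iff {z : G} (hz : z * z = 1) {θ : Equiv.Perm G} (hθ : Good θ) (v : Vt z) :
    v ∈ LinearMap.ker (Phi (z := z) hθ) ↔
      (∀ s, ff hθ v (s * z) = ff hθ v s) ∧ v.1 (pr z 1) = 0 ∧ v.2 (pr z 1) = 0 := by
  rw [LinearMap.mem_ker]
  constructor
  · intro h
    have h1 := congrArg Prod.fst h
    have h2 := congrArg Prod.snd h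
    refine ⟨?_, congrArg Prod.fst h2, congrArg Prod.snd h2⟩
    intro s
    have h3 : ff hθ v (Quotient.out (pr z s)) + ff hθ v (Quotient.out (pr z s) * z) = 0 :=
      congrFun h1 (pr z s)
    have h4 := CharTwo.add_eq_zero.mp h3
    rcases pr_eq hz (show pr z s = pr z (Quotient.out (pr z s)) from (pr_out _).symm) with h | h
    · generalize Quotient.out (pr z s) = t at h h4
      rw [h, h4]
    · generalize Quotient.out (pr z s) = t at h h4
      rw [h, mul_assoc, hz, mul_one, h4]
  · rintro ⟨h1, h2, h3⟩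
    refine Prod.ext ?_ (Prod.ext h2 h3)
    funext q
    show ff hθ v (Quotient.out q) + ff hθ v (Quotient.out q * z) = 0
    rw [h1]
    exact CharTwo.add_self_eq_zero _

theorem finrank_ker {z : G} (hz : z * z = 1) (hz1 : z ≠ 1) [Fintype G] [Fintype (Qt z)]
    {θ : Equiv.Perm G} (hθ : Good θ) :
    Fintype.card (Qt z) - 1 ≤ Module.finrank (ZMod 2) (LinearMap.ker (Phi (z := z) hθ)) := by
  have hle : LinearMap.range (Phi (z := z) hθ) ≤ LinearMap.ker (ell z) := by
    rintro w ⟨v, rfl⟩
    rw [LinearMap.mem_ker]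
    show ∑ q : Qt z, (ff hθ v (Quotient.out q) + ff hθ v (Quotient.out q * z)) = 0
    rw [← sum_eq hz hz1, sum_ff hz hz1]
  have h1 := Submodule.finrank_mono hle
  have h2 := LinearMap.finrank_range_add_finrank_ker (Phi (z := z) hθ)
  have h3 := LinearMap.finrank_range_add_finrank_ker (ell z)
  have h4 : LinearMap.range (ell z) = ⊤ := by
    rw [LinearMap.range_eq_top]
    classical
    intro c
    refine ⟨(Pi.single (pr z 1) c, 0), ?_⟩
    show ∑ q : Qt z, (Pi.single (pr z 1) c : Qt z → ZMod 2) q = c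
    rw [Finset.sum_pi_single']
    simp
  rw [h4, finrank_top, Module.finrank_self, Module.finrank_prod, Module.finrank_prod,
    Module.finrank_self, Module.finrank_fintype_fun_eq_card] at h3
  rw [Module.finrank_prod, Module.finrank_fintype_fun_eq_card] at h2
  omega

/-! ### the classes -/

/-- the equivalence relation: `θ'` is obtained from `θ` by a normalised flip -/
def rel {z : G} (hz : z * z = 1) : Setoid {θ : Equiv.Perm G // Norm θ} where
  r θ θ' := ∃ v : Vt z, v.1 (pr z 1) = 0 ∧ v.2 (pr z 1) = 0 ∧ act hz v θ.1 = θ'.1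
  iseqv := by
    constructor
    · intro θ
      exact ⟨0, rfl, rfl, act_zero hz θ.1⟩
    · rintro θ θ' ⟨v, h1, h2, h3⟩
      refine ⟨v, h1, h2, ?_⟩
      rw [← h3, act_act, add_self_Vt, act_zero]
    · rintro θ θ' θ'' ⟨v, h1, h2, h3⟩ ⟨w, h4, h5, h6⟩
      refine ⟨w + v, ?_, ?_, ?_⟩
      · show w.1 (pr z 1) + v.1 (pr z 1) = 0
        rw [h1, h4, add_zero]
      · show w.2 (pr z 1) + v.2 (pr z 1) = 0
        rw [h2, h5, add_zero]
      · rw [← act_act, h3, h6]

theorem card_class {z : G} (hz : z * z = 1) (hz1 : z ≠ 1) (hc : ∀ g : G, z * g = g * z)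
    [Finite G] (θ : {θ : Equiv.Perm G // Norm θ}) :
    Nat.card {θ' : {θ : Equiv.Perm G // Norm θ} // (rel hz).r θ θ'}
      = Nat.card (LinearMap.ker (Phi (z := z) θ.2.1)) := by
  symm
  have hm : ∀ v : LinearMap.ker (Phi (z := z) θ.2.1), Norm (act hz v.1 θ.1) := by
    rintro ⟨v, hv⟩
    rw [mem_ker_iff hz] at hv
    refine ⟨(good_act_iff hz hz1 hc v θ.2.1).mpr hv.1, ?_⟩
    show act hz v θ.1 1 = 1
    have h1 : flip hz v.1 1 = 1 := by rw [flip_apply, hv.2.1, tw_zero, mul_one]
    have h2 : flip hz v.2 1 = 1 := by rw [flip_apply, hv.2.2, tw_zero, mul_one]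
    rw [act_apply, h1, θ.2.2, h2]
  have hr : ∀ v : LinearMap.ker (Phi (z := z) θ.2.1),
      (rel hz).r θ ⟨act hz v.1 θ.1, hm v⟩ := by
    rintro ⟨v, hv⟩
    have hv' := (mem_ker_iff hz _ _).mp hv
    exact ⟨v, hv'.2.1, hv'.2.2, rfl⟩
  refine Nat.card_eq_of_bijective
    (fun v => (⟨⟨act hz v.1 θ.1, hm v⟩, hr v⟩ :
      {θ' : {θ : Equiv.Perm G // Norm θ} // (rel hz).r θ θ'})) ⟨?_, ?_⟩
  · rintro ⟨v, hv⟩ ⟨w, hw⟩ h
    have h1 : act hz v θ.1 = act hz w θ.1 := congrArg (fun t => t.1.1) h
    have h2 : act hz (v + w) θ.1 = θ.1 := by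
      rw [← act_act, ← h1, act_act, add_self_Vt, act_zero]
    have h3 : v + w = 0 := act_inj hz hz1 hc θ.2.1 h2
    apply Subtype.ext
    show v = w
    have h4 : v + w + w = w := by rw [h3, zero_add]
    rwa [add_assoc, add_self_Vt, add_zero] at h4
  · rintro ⟨θ', v, h1, h2, h3⟩
    have hv : v ∈ LinearMap.ker (Phi (z := z) θ.2.1) := by
      rw [mem_ker_iff hz]
      refine ⟨?_, h1, h2⟩
      rw [← good_act_iff hz hz1 hc, h3]
      exact θ'.2.1
    refine ⟨⟨v, hv⟩, ?_⟩
    apply Subtype.ext
    apply Subtype.ext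
    exact h3

theorem main {z : G} (hz : z * z = 1) (hz1 : z ≠ 1) (hc : ∀ g : G, z * g = g * z) [Finite G] :
    2 ^ (Nat.card G / 2 - 1) ∣ Nat.card {θ : Equiv.Perm G // Norm θ} := by
  classical
  have : Fintype G := Fintype.ofFinite G
  have : Fintype (Qt z) := Fintype.ofFinite _
  have : Fintype {θ : Equiv.Perm G // Norm θ} := Fintype.ofFinite _
  let st : Setoid {θ : Equiv.Perm G // Norm θ} := rel hz
  have : Fintype (Quotient st) := Fintype.ofFinite _
  have hcard : Nat.card G / 2 = Fintype.card (Qt z) := by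
    rw [card_eq hz hz1, Nat.mul_div_cancel _ (by norm_num), Nat.card_eq_fintype_card]
  rw [hcard]
  have h1 : Nat.card {θ : Equiv.Perm G // Norm θ}
      = ∑ c : Quotient st, Nat.card {θ : {θ : Equiv.Perm G // Norm θ} // (⟦θ⟧ : Quotient st) = c} := by
    rw [← Nat.card_sigma]
    exact Nat.card_congr (Equiv.sigmaFiberEquiv (fun θ => (⟦θ⟧ : Quotient st))).symm
  rw [h1]
  apply Finset.dvd_sum
  intro c _
  obtain ⟨θ, rfl⟩ := Quotient.exists_rep c
  have h2 : Nat.card {θ' : {θ : Equiv.Perm G // Norm θ} // (⟦θ'⟧ : Quotient st) = ⟦θ⟧}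
      = Nat.card {θ' : {θ : Equiv.Perm G // Norm θ} // (rel hz).r θ θ'} := by
    apply Nat.card_congr
    apply Equiv.subtypeEquivRight
    intro θ'
    rw [Quotient.eq]
    exact ⟨fun h => (rel hz).iseqv.symm h, fun h => (rel hz).iseqv.symm h⟩
  rw [h2, card_class hz hz1 hc]
  have h3 : Nat.card (LinearMap.ker (Phi (z := z) θ.2.1))
      = 2 ^ Module.finrank (ZMod 2) (LinearMap.ker (Phi (z := z) θ.2.1)) := by
    have : Fintype (LinearMap.ker (Phi (z := z) θ.2.1)) := Fintype.ofFinite _
    rw [Nat.card_eq_fintype_card, Module.card_eq_pow_finrank (K := ZMod 2), ZMod.card]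
  rw [h3]
  exact pow_dvd_pow 2 (finrank_ker hz hz1 θ.2.1)

end

/-- If the finite group `G` has a central element of order two, then
`|G| * 2 ^ (|G| / 2 - 1)` divides the number of transversals of the Cayley table of `G`. -/
theorem of_central_involution (G : Type) [Group G] [Finite G] (z : G) (hz1 : z ≠ 1)
    (hz : z * z = 1) (hc : ∀ g : G, z * g = g * z) :
    Nat.card G * 2 ^ (Nat.card G / 2 - 1) ∣ N G := by
  have : Fintype G := Fintype.ofFinite G
  rw [N_eq_card_good, card_good_eq]
  exact Nat.mul_dvd_mul_left _ (main hz hz1 hc)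

/-- **Theorem.**  Let `G` be a nontrivial finite `2`-group.  Then `|G| * 2 ^ (|G| / 2 - 1)`
divides the number of transversals of the Cayley table of `G`. -/
theorem result (G : Type) [Group G] [Finite G] [Nontrivial G] (hG : IsPGroup 2 G) :
    Nat.card G * 2 ^ (Nat.card G / 2 - 1) ∣ N G := by
  have : Nontrivial (Subgroup.center G) := hG.center_nontrivial
  have hp : IsPGroup 2 (Subgroup.center G) := hG.to_subgroup _
  obtain ⟨n, hn, hcard⟩ := (IsPGroup.nontrivial_iff_card hp).mp inferInstance
  have h2 : 2 ∣ Nat.card (Subgroup.center G) := by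
    rw [hcard]
    exact dvd_pow_self 2 (by omega)
  obtain ⟨z, hz⟩ := exists_prime_orderOf_dvd_card' 2 h2
  have hz1 : z ≠ 1 := by
    intro h
    rw [h, orderOf_one] at hz
    omega
  have hz2 : z * z = 1 := by
    have := pow_orderOf_eq_one z
    rwa [hz, pow_two] at this
  refine of_central_involution G z.1 ?_ (congrArg Subtype.val hz2) ?_
  · intro h
    exact hz1 (Subtype.ext h)
  · intro g
    exact (Subgroup.mem_center_iff.mp z.2 g).symm

end Pool.Agent.Results.MP_210e22_co.HalfPower
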