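import Pool.Agent.Lib.MP_210e22_co.TA.PotMain

/-!
# Powers of two dividing the number of transversals: groups with a normal elementary abelian
# 2-subgroup

`N G` is the number of transversals of the Cayley table of the finite group `G` of order `n`.  If
`G` has a normal elementary abelian subgroup of order `2 ^ r`, `r ≥ 1`, then `2 ^ m` divides `N G`
for all `m ≤ n * (1 - 7 * (27 / 32) ^ (r / 3) / √r)`.

Proof.  `n! * N G` is the sum, over the triples of permutations `ρ, σ, τ` of `G`, of the product
over `x` of `[ρ x * σ x = τ x]`.  Write `[a * b = c]` as `∑ P(a, i) Q(b, j) R(c, l) C(i, j, l)`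
for suitable bases of the functions on `G`, indexed by the cosets of the normal subgroup `H` and
the subsets of `{1, ..., r}`.  The sum becomes a sum over the functions `w` from `G` to the set of
the triples `(i, j, l)`, of a product of structure constants `C` and of three permanents.  The
permanents are divisible by the products of the factorials of the fibre sizes, the orbit of `w` has
`n! / ∏ (fibre sizes)!` elements, and a pigeonhole argument over the field with two elements shows
that `C(i, j, l)` is even unless `|S| + |T| ≤ |U|` for the subsets `S, T, U` of `i, j, l`.  The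
exponents of two are then compared by means of potentials `p(|S|), p(|T|), p(r - |U|)` such that
the two smaller potentials of a triple with odd `C(i, j, l)` have sum at most one; a number `c` has
at most `p * c + h(p)` binary digits one, and the sum of the losses `h(p)` over all indices is
small.
-/

namespace Pool.Agent.Results.MP_210e22_co.NormalElementary

open Pool.Agent.MP210e22

/-- If the finite group `G` has a normal elementary abelian subgroup `H` of order `2 ^ r`, `r ≥ 1`,
then `2 ^ m` divides the number of transversals of the Cayley table of `G` for all
`m ≤ |G| * (1 - 7 * (27 / 32) ^ (r / 3) / √r)`. -/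
theorem result (G : Type) [Group G] [Finite G] (H : Subgroup G) (hN : H.Normal) (r : ℕ)
    (hr : Nat.card H = 2 ^ r) (hsq : ∀ h ∈ H, h ^ 2 = 1) (hr1 : 1 ≤ r) (m : ℕ)
    (hm : (m : ℝ) ≤ (Nat.card G : ℝ) *
      (1 - 7 * (27 / 32 : ℝ) ^ ((r : ℝ) / 3) / √(r : ℝ))) :
    2 ^ m ∣ N G :=
  normal_pot H hN r hr hsq hr1 m hm

end Pool.Agent.Results.MP_210e22_co.NormalElementary
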