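import Pool.Agent.Lib.MP_210e22_co.TA.PotMain

/-!
# Powers of two dividing the number of transversals: 2-groups with a large subgroup of small
# exponent

`N G` is the number of transversals of the Cayley table of the finite group `G`.  Let `G` be a
2-group of order `n` with a subgroup `X` of order `2 ^ K` and exponent dividing `2 ^ e`, and let
`r ≥ 1` and `e * (r - 1) + (e + 2) * (r - 1) ^ 2 < K`.  Then `2 ^ m` divides `N G` for all
`m ≤ n * (1 - 7 * (27 / 32) ^ (r / 3) / √r)`.

Proof.  A maximal normal abelian subgroup `A` of `G` is its own centralizer.  Let `2 ^ s` be the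
number of its elements of order at most two.  The group `X` acts on `A` by conjugation; the kernels
of its actions on `A[2]` and, in there, on `A[4]` have index at most `2 ^ (s ^ 2)` each.  If `x`
acts trivially on `A[4]` and `x ^ (2 ^ e) = 1` then the commutators of `x` with the elements of `A`
have order dividing `2 ^ e`, so that the next index is at most `2 ^ (e * s ^ 2)`, and
`X ∩ A` has at most `2 ^ (e * s)` elements.  So `K ≤ e * s + (e + 2) * s ^ 2`, whence `s ≥ r`.  The
elements of order at most two of `A` form a normal elementary abelian subgroup of order `2 ^ s`,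
and the result for groups with such a subgroup (`Pool.Agent.MP210e22.normal_pot`) applies.
-/

namespace Pool.Agent.Results.MP_210e22_co.SubgroupOfSmallExponent

open Pool.Agent.MP210e22

/-- If the finite 2-group `G` has a subgroup `X` of order `2 ^ K` with `x ^ (2 ^ e) = 1` for all
`x ∈ X`, and `r ≥ 1` and `e * (r - 1) + (e + 2) * (r - 1) ^ 2 < K`, then `2 ^ m` divides the number
of transversals of the Cayley table of `G` for all
`m ≤ |G| * (1 - 7 * (27 / 32) ^ (r / 3) / √r)`. -/
theorem result (G : Type) [Group G] [Finite G] (hG : IsPGroup 2 G) (X : Subgroup G)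
    (K e : ℕ) (hK : Nat.card X = 2 ^ K) (hX : ∀ x ∈ X, x ^ (2 ^ e) = 1) (r m : ℕ)
    (hr1 : 1 ≤ r) (hr : e * (r - 1) + (e + 2) * (r - 1) ^ 2 < K)
    (hm : (m : ℝ) ≤ (Nat.card G : ℝ) *
      (1 - 7 * (27 / 32 : ℝ) ^ ((r : ℝ) / 3) / √(r : ℝ))) :
    2 ^ m ∣ N G :=
  large_pot hG X K e hK hX r m hr1 hr hm

end Pool.Agent.Results.MP_210e22_co.SubgroupOfSmallExponent
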